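import Pool.Agent.Lib.MP_3ee548_nt.RS.Iface

/-!
# Poisson summation for inverse Gaussian weights (module POI of the board sqr_modules)
-/

set_option autoImplicit false

namespace Pool.Agent.Lib.MP_3ee548_nt.RS.H22

open Pool.Agent.Lib.MP_3ee548_nt.RS
open Set Filter Topology MeasureTheory Asymptotics
open scoped FourierTransform

/-- the summand, extended by zero to `y ≤ 0` -/
noncomputable def ff (a : ℂ) (β : ℝ) (y : ℝ) : ℂ :=
  if 0 < y then ((y ^ (-(3 / 2) : ℝ) : ℝ) : ℂ) *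
    Complex.exp (-(Real.pi : ℂ) * a / y - (Real.pi : ℂ) * β * y) else 0

/-! ## The principal square root -/

theorem half_sq {a : ℂ} (ha : 0 < a.re) :
    a ^ (1 / 2 : ℂ) * a ^ (1 / 2 : ℂ) = a ∧ 0 < (a ^ (1 / 2 : ℂ)).re := by
  have h0 : a ≠ 0 := by
    rintro rfl
    simp at ha
  refine ⟨?_, ?_⟩
  · rw [← Complex.cpow_add _ _ h0]
    norm_num
  · rw [Complex.cpow_def_of_ne_zero h0, Complex.exp_re]
    refine mul_pos (Real.exp_pos _) (Real.cos_pos_of_mem_Ioo ?_)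
    have h1 : (Complex.log a * (1 / 2 : ℂ)).im = Complex.arg a / 2 := by
      have : (1 / 2 : ℂ) = ((1 / 2 : ℝ) : ℂ) := by norm_num
      rw [this, Complex.im_mul_ofReal, Complex.log_im]
      ring
    rw [h1]
    have h2 := Complex.abs_arg_lt_pi_div_two_iff.2 (Or.inl ha)
    rw [abs_lt] at h2
    have h3 := Real.pi_pos
    constructor <;> linarith [h2.1, h2.2]

/-- a complex number whose square has positive real part -/
theorem re_gt_abs_im {s a : ℂ} (h : s * s = a) (hs : 0 < s.re) (ha : 0 < a.re) :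
    |s.im| < s.re := by
  have h1 : a.re = s.re * s.re - s.im * s.im := by rw [← h, Complex.mul_re]
  rw [abs_lt]
  constructor <;> nlinarith

theorem re_mul_ge {a b : ℂ} (ha : 0 < a.re) (hb : 0 < b.re) :
    ((a ^ (1 / 2 : ℂ)).re - |(a ^ (1 / 2 : ℂ)).im|) * Real.sqrt (|b.im| / 2) ≤
      (a ^ (1 / 2 : ℂ) * b ^ (1 / 2 : ℂ)).re := by
  obtain ⟨h1, h2⟩ := half_sq ha
  obtain ⟨h3, h4⟩ := half_sq hb
  have h5 := re_gt_abs_im h1 h2 ha
  have h6 := re_gt_abs_im h3 h4 hb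
  set s := a ^ (1 / 2 : ℂ)
  set w := b ^ (1 / 2 : ℂ)
  have h7 : b.im = w.re * w.im + w.im * w.re := by rw [← h3, Complex.mul_im]
  have h8 : |b.im| / 2 = w.re * |w.im| := by
    rw [h7, show w.re * w.im + w.im * w.re = 2 * (w.re * w.im) by ring, abs_mul, abs_mul,
      abs_of_pos h4]
    norm_num
  have h9 : Real.sqrt (|b.im| / 2) ≤ w.re := by
    rw [h8]
    apply Real.sqrt_le_iff.2
    exact ⟨h4.le, by nlinarith [abs_nonneg w.im]⟩
  have h10 : s.im * w.im ≤ |s.im| * w.re := by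
    calc s.im * w.im ≤ |s.im * w.im| := le_abs_self _
      _ = |s.im| * |w.im| := abs_mul _ _
      _ ≤ |s.im| * w.re := mul_le_mul_of_nonneg_left h6.le (abs_nonneg _)
  rw [Complex.mul_re]
  have h11 : (s.re - |s.im|) * Real.sqrt (|b.im| / 2) ≤ (s.re - |s.im|) * w.re :=
    mul_le_mul_of_nonneg_left h9 (by linarith)
  nlinarith

theorem summable_right (a : ℂ) (β : ℝ) (ha : 0 < a.re) (hβ : 0 < β) :
    Summable (fun m : ℤ => ‖Complex.exp (-2 * (Real.pi : ℂ) *
      (a ^ (1 / 2 : ℂ) * ((β : ℂ) + 2 * Complex.I * m) ^ (1 / 2 : ℂ)))‖) := by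
  obtain ⟨h1, h2⟩ := half_sq ha
  have h5 := re_gt_abs_im h1 h2 ha
  set c := (a ^ (1 / 2 : ℂ)).re - |(a ^ (1 / 2 : ℂ)).im| with hc
  have hc0 : 0 < c := by rw [hc]; linarith
  have hp := Real.pi_pos
  have hbound : ∀ m : ℤ, m ≠ 0 → ‖Complex.exp (-2 * (Real.pi : ℂ) *
      (a ^ (1 / 2 : ℂ) * ((β : ℂ) + 2 * Complex.I * m) ^ (1 / 2 : ℂ)))‖ ≤
      (24 / (2 * Real.pi * c) ^ 4) * |(m : ℝ)| ^ (-(2 : ℝ)) := by
    intro m hm
    have hre : 0 < ((β : ℂ) + 2 * Complex.I * m).re := by simpa using hβ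
    have him : ((β : ℂ) + 2 * Complex.I * m).im = 2 * (m : ℝ) := by simp
    have h6 := re_mul_ge ha hre
    rw [him, abs_mul, abs_of_pos (by norm_num : (0 : ℝ) < 2),
      mul_div_cancel_left₀ _ (by norm_num : (2 : ℝ) ≠ 0), ← hc] at h6
    have hm1 : 0 < |(m : ℝ)| := by
      rw [abs_pos]
      exact_mod_cast hm
    rw [Complex.norm_exp]
    have h7 : (-2 * (Real.pi : ℂ) *
      (a ^ (1 / 2 : ℂ) * ((β : ℂ) + 2 * Complex.I * m) ^ (1 / 2 : ℂ))).re =
      -(2 * Real.pi * (a ^ (1 / 2 : ℂ) * ((β : ℂ) + 2 * Complex.I * m) ^ (1 / 2 : ℂ)).re) := by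
      have : (-2 * (Real.pi : ℂ)) = ((-(2 * Real.pi) : ℝ) : ℂ) := by push_cast; ring
      rw [this, Complex.re_ofReal_mul]
      ring
    rw [h7]
    set t := 2 * Real.pi * (a ^ (1 / 2 : ℂ) * ((β : ℂ) + 2 * Complex.I * m) ^ (1 / 2 : ℂ)).re
    have ht : 2 * Real.pi * c * Real.sqrt |(m : ℝ)| ≤ t := by
      have := mul_le_mul_of_nonneg_left h6 (by positivity : (0 : ℝ) ≤ 2 * Real.pi)
      calc 2 * Real.pi * c * Real.sqrt |(m : ℝ)| = 2 * Real.pi * (c * Real.sqrt |(m : ℝ)|) := by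
            ring
        _ ≤ _ := this
    have hx : 0 < 2 * Real.pi * c * Real.sqrt |(m : ℝ)| := by
      have := Real.sqrt_pos.2 hm1
      positivity
    have h8 := Real.pow_div_factorial_le_exp _ (hx.le.trans ht) 4
    have h9 : (2 * Real.pi * c * Real.sqrt |(m : ℝ)|) ^ 4 / 24 ≤ Real.exp t := by
      refine le_trans ?_ h8
      have : ((4 : ℕ).factorial : ℝ) = 24 := by norm_num [Nat.factorial]
      rw [this]
      gcongr
    have h10 : (2 * Real.pi * c * Real.sqrt |(m : ℝ)|) ^ 4 =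
        (2 * Real.pi * c) ^ 4 * |(m : ℝ)| ^ 2 := by
      rw [mul_pow, show (4 : ℕ) = 2 * 2 from rfl, pow_mul (Real.sqrt |(m : ℝ)|),
        Real.sq_sqrt hm1.le]
    rw [Real.exp_neg, Real.rpow_neg hm1.le, Real.rpow_two]
    rw [h10] at h9
    have h11 : 0 < (2 * Real.pi * c) ^ 4 * |(m : ℝ)| ^ 2 / 24 := by positivity
    calc (Real.exp t)⁻¹ ≤ ((2 * Real.pi * c) ^ 4 * |(m : ℝ)| ^ 2 / 24)⁻¹ :=
          inv_anti₀ h11 h9
      _ = 24 / (2 * Real.pi * c) ^ 4 * (|(m : ℝ)| ^ 2)⁻¹ := by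
          have : c ≠ 0 := hc0.ne'
          have : (m : ℝ) ≠ 0 := by exact_mod_cast hm
          have : |(m : ℝ)| ≠ 0 := hm1.ne'
          field_simp
  refine Summable.of_norm_bounded_eventually
    (((Real.summable_abs_int_rpow (by norm_num : (1 : ℝ) < 2))).mul_left
      (24 / (2 * Real.pi * c) ^ 4)) ?_
  filter_upwards [(Set.finite_singleton (0 : ℤ)).eventually_cofinite_notMem] with m hm
  rw [norm_norm]
  exact hbound m (by simpa using hm)

/-! ## Bounds and continuity of the summand -/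

theorem norm_ff {a : ℂ} {β y : ℝ} (hy : 0 < y) :
    ‖ff a β y‖ = y ^ (-(3 / 2) : ℝ) * Real.exp (-(Real.pi * a.re / y)) *
      Real.exp (-(Real.pi * β * y)) := by
  rw [ff, if_pos hy, norm_mul, Complex.norm_real, Complex.norm_exp,
    Real.norm_of_nonneg (Real.rpow_nonneg hy.le _),
    mul_assoc (y ^ (-(3 / 2) : ℝ)) (Real.exp _) (Real.exp _), ← Real.exp_add]
  congr 2
  have h1 : -(Real.pi : ℂ) * a / y - (Real.pi : ℂ) * β * y =
      ((-(Real.pi / y) : ℝ) : ℂ) * a + ((-(Real.pi * β * y) : ℝ) : ℂ) := by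
    have : (y : ℂ) ≠ 0 := by exact_mod_cast hy.ne'
    push_cast
    field_simp
    ring
  rw [h1, Complex.add_re, Complex.re_ofReal_mul, Complex.ofReal_re]
  ring

theorem norm_ff_le {a : ℂ} {β : ℝ} (ha : 0 < a.re) {y : ℝ} (hy : 0 < y) :
    ‖ff a β y‖ ≤ (6 / (Real.pi * a.re) ^ 3) * y ^ (3 / 2 : ℝ) * Real.exp (-(Real.pi * β * y)) := by
  rw [norm_ff hy]
  have hA : 0 < Real.pi * a.re := mul_pos Real.pi_pos ha
  have h1 : Real.exp (-(Real.pi * a.re / y)) ≤ 6 / (Real.pi * a.re) ^ 3 * y ^ 3 := by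
    have h2 := Real.pow_div_factorial_le_exp _ (div_pos hA hy).le 3
    have h3 : ((3 : ℕ).factorial : ℝ) = 6 := by norm_num [Nat.factorial]
    rw [h3] at h2
    rw [Real.exp_neg]
    have h4 : 0 < (Real.pi * a.re / y) ^ 3 / 6 := by positivity
    calc (Real.exp (Real.pi * a.re / y))⁻¹ ≤ ((Real.pi * a.re / y) ^ 3 / 6)⁻¹ :=
          inv_anti₀ h4 h2
      _ = 6 / (Real.pi * a.re) ^ 3 * y ^ 3 := by
          field_simp
  have h5 : y ^ (-(3 / 2) : ℝ) * y ^ 3 = y ^ (3 / 2 : ℝ) := by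
    rw [← Real.rpow_natCast, ← Real.rpow_add hy]
    norm_num
  have h6 : 0 ≤ y ^ (-(3 / 2) : ℝ) := Real.rpow_nonneg hy.le _
  calc y ^ (-(3 / 2) : ℝ) * Real.exp (-(Real.pi * a.re / y)) * Real.exp (-(Real.pi * β * y))
      ≤ y ^ (-(3 / 2) : ℝ) * (6 / (Real.pi * a.re) ^ 3 * y ^ 3) *
        Real.exp (-(Real.pi * β * y)) := by gcongr
    _ = (6 / (Real.pi * a.re) ^ 3) * (y ^ (-(3 / 2) : ℝ) * y ^ 3) *
        Real.exp (-(Real.pi * β * y)) := by ring
    _ = _ := by rw [h5]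

theorem ff_of_nonpos {a : ℂ} {β y : ℝ} (hy : y ≤ 0) : ff a β y = 0 := by
  rw [ff, if_neg (not_lt.2 hy)]

theorem continuous_ff {a : ℂ} {β : ℝ} (ha : 0 < a.re) (hβ : 0 < β) :
    Continuous (ff a β) := by
  rw [continuous_iff_continuousAt]
  intro y
  rcases lt_trichotomy y 0 with hy | hy | hy
  · have h1 : ff a β =ᶠ[𝓝 y] fun _ => 0 := by
      filter_upwards [Iio_mem_nhds hy] with x hx
      exact ff_of_nonpos (le_of_lt hx)
    exact (continuousAt_const.congr h1.symm)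
  · subst hy
    rw [ContinuousAt, ff_of_nonpos le_rfl]
    have hb : ∀ x : ℝ, ‖ff a β x‖ ≤ (6 / (Real.pi * a.re) ^ 3) * |x| ^ (3 / 2 : ℝ) := by
      intro x
      have hA : 0 < Real.pi * a.re := mul_pos Real.pi_pos ha
      by_cases hx : 0 < x
      · refine (norm_ff_le ha hx).trans ?_
        rw [abs_of_pos hx]
        have h2 : Real.exp (-(Real.pi * β * x)) ≤ 1 := by
          rw [Real.exp_le_one_iff]
          have := Real.pi_pos
          have : 0 < Real.pi * β * x := by positivity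
          linarith
        have h3 : 0 ≤ 6 / (Real.pi * a.re) ^ 3 * x ^ (3 / 2 : ℝ) := by positivity
        calc _ ≤ 6 / (Real.pi * a.re) ^ 3 * x ^ (3 / 2 : ℝ) * 1 := by gcongr
          _ = _ := mul_one _
      · rw [ff_of_nonpos (not_lt.1 hx), norm_zero]
        positivity
    apply squeeze_zero_norm hb
    have h4 : Tendsto (fun x : ℝ => (6 / (Real.pi * a.re) ^ 3) * |x| ^ (3 / 2 : ℝ)) (𝓝 0)
        (𝓝 ((6 / (Real.pi * a.re) ^ 3) * |(0 : ℝ)| ^ (3 / 2 : ℝ))) := by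
      apply Tendsto.const_mul
      exact (continuous_abs.continuousAt.rpow_const (Or.inr (by norm_num))).tendsto
    simpa [Real.zero_rpow (by norm_num : (3 / 2 : ℝ) ≠ 0)] using h4
  · have h1 : ff a β =ᶠ[𝓝 y] fun y => ((y ^ (-(3 / 2) : ℝ) : ℝ) : ℂ) *
        Complex.exp (-(Real.pi : ℂ) * a / y - (Real.pi : ℂ) * β * y) := by
      filter_upwards [Ioi_mem_nhds hy] with x hx
      rw [ff, if_pos (show 0 < x from hx)]
    refine ContinuousAt.congr ?_ h1.symm
    have hy' : (y : ℂ) ≠ 0 := by exact_mod_cast hy.ne'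
    refine ContinuousAt.mul ?_ ?_
    · exact Complex.continuous_ofReal.continuousAt.comp
        (continuousAt_id.rpow_const (Or.inl hy.ne'))
    · refine Complex.continuous_exp.continuousAt.comp ?_
      refine ContinuousAt.sub (ContinuousAt.div continuousAt_const
        Complex.continuous_ofReal.continuousAt hy') ?_
      exact continuousAt_const.mul Complex.continuous_ofReal.continuousAt

theorem isBigO_ff {a : ℂ} {β : ℝ} (ha : 0 < a.re) (hβ : 0 < β) :
    (ff a β) =O[cocompact ℝ] fun x : ℝ => |x| ^ (-(2 : ℝ)) := by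
  rw [cocompact_eq_atBot_atTop, isBigO_sup]
  constructor
  · have h1 : ff a β =ᶠ[atBot] fun _ => 0 := by
      filter_upwards [eventually_le_atBot 0] with x hx
      exact ff_of_nonpos hx
    exact h1.trans_isBigO (isBigO_zero _ _)
  · have hB : 0 < Real.pi * β := mul_pos Real.pi_pos hβ
    have h2 : (fun x : ℝ => Real.exp (-(Real.pi * β) * x)) =O[atTop]
        fun x : ℝ => x ^ (-(7 / 2) : ℝ) := (isLittleO_exp_neg_mul_rpow_atTop hB _).isBigO
    have h3 : (ff a β) =O[atTop] fun x : ℝ => x ^ (3 / 2 : ℝ) * Real.exp (-(Real.pi * β) * x) := by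
      refine IsBigO.of_bound (6 / (Real.pi * a.re) ^ 3) ?_
      filter_upwards [eventually_gt_atTop 0] with x hx
      refine (norm_ff_le ha hx).trans (le_of_eq ?_)
      rw [Real.norm_of_nonneg (mul_nonneg (Real.rpow_nonneg hx.le _) (Real.exp_pos _).le)]
      rw [neg_mul]
      ring
    refine h3.trans ?_
    refine ((isBigO_refl (fun x : ℝ => x ^ (3 / 2 : ℝ)) atTop).mul h2).trans ?_
    refine EventuallyEq.isBigO ?_
    filter_upwards [eventually_gt_atTop 0] with x hx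
    rw [abs_of_pos hx, ← Real.rpow_add hx]
    norm_num

/-! ## The Fourier transform -/

theorem fourier_ff (hfti : FtiStatement) {a : ℂ} {β : ℝ} (ha : 0 < a.re) (hβ : 0 < β) (m : ℤ) :
    a ^ (1 / 2 : ℂ) * 𝓕 (ff a β) (m : ℝ) = Complex.exp (-2 * (Real.pi : ℂ) *
      (a ^ (1 / 2 : ℂ) * ((β : ℂ) + 2 * Complex.I * m) ^ (1 / 2 : ℂ))) := by
  have hre : 0 < ((β : ℂ) + 2 * Complex.I * m).re := by simpa using hβ
  rw [← (hfti a _ ha hre).2]
  congr 1
  rw [Real.fourier_real_eq_integral_exp_smul]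
  have h1 : ∀ x : ℝ, x ∉ Ioi (0 : ℝ) →
      Complex.exp (((-2 * Real.pi * x * (m : ℝ) : ℝ) : ℂ) * Complex.I) • ff a β x = 0 := by
    intro x hx
    rw [ff_of_nonpos (not_lt.1 hx), smul_zero]
  rw [← setIntegral_eq_integral_of_forall_compl_eq_zero h1]
  refine setIntegral_congr_fun measurableSet_Ioi fun y hy => ?_
  have hy' : (0 : ℝ) < y := hy
  have hy0 : (y : ℂ) ≠ 0 := by exact_mod_cast hy'.ne'
  simp only [ff, if_pos hy', smul_eq_mul]
  rw [mul_left_comm, ← Complex.exp_add]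
  congr 2
  push_cast
  field_simp
  ring

theorem poi (hfti : FtiStatement) : PoiStatement := by
  intro a β ha hβ
  have hs := summable_right a β ha hβ
  refine ⟨hs, ?_⟩
  have ha0 : a ≠ 0 := by
    rintro rfl
    simp at ha
  have hr0 : a ^ (1 / 2 : ℂ) ≠ 0 := by
    intro h
    have := (half_sq ha).2
    rw [h] at this
    simp at this
  have hF : ∀ m : ℤ, 𝓕 (ff a β) (m : ℝ) = (a ^ (1 / 2 : ℂ))⁻¹ * Complex.exp (-2 * (Real.pi : ℂ) *
      (a ^ (1 / 2 : ℂ) * ((β : ℂ) + 2 * Complex.I * m) ^ (1 / 2 : ℂ))) := by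
    intro m
    rw [← fourier_ff hfti ha hβ m, inv_mul_cancel_left₀ hr0]
  have hsum : Summable fun n : ℤ => 𝓕 (ff a β) (n : ℝ) := by
    simp_rw [hF]
    exact (Summable.of_norm hs).mul_left _
  have hP := Real.tsum_eq_tsum_fourier_of_rpow_decay_of_summable (continuous_ff ha hβ)
    (by norm_num : (1 : ℝ) < 2) (isBigO_ff ha hβ) hsum 0
  have hL : ∑' n : ℤ, ff a β (0 + n) = ∑' n : ℕ, ((((n : ℝ) + 1) ^ (-(3 / 2) : ℝ) : ℝ) : ℂ) *
      Complex.exp (-(Real.pi : ℂ) * a / (n + 1) - (Real.pi : ℂ) * β * (n + 1)) := by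
    have hinj : Function.Injective fun n : ℕ => (n : ℤ) + 1 := by
      intro x y h
      have : (x : ℤ) + 1 = y + 1 := h
      omega
    have hsupp : Function.support (fun n : ℤ => ff a β (0 + n)) ⊆
        range fun n : ℕ => (n : ℤ) + 1 := by
      intro n hn
      by_contra hcon
      apply hn
      apply ff_of_nonpos
      have : n ≤ 0 := by
        by_contra h
        push Not at h
        apply hcon
        exact ⟨(n - 1).toNat, by
          show ((n - 1).toNat : ℤ) + 1 = n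
          rw [Int.toNat_of_nonneg (by omega)]
          ring⟩
      have h2 : (n : ℝ) ≤ 0 := by exact_mod_cast this
      linarith
    rw [← hinj.tsum_eq hsupp]
    refine tsum_congr fun n => ?_
    have hpos : (0 : ℝ) < 0 + (((n : ℤ) + 1 : ℤ) : ℝ) := by
      push_cast
      positivity
    rw [ff, if_pos hpos]
    push_cast
    simp only [zero_add]
  rw [hL] at hP
  rw [hP, ← tsum_mul_left]
  refine tsum_congr fun m => ?_
  have h0 : ((0 : ℝ) : UnitAddCircle) = 0 := by simp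
  rw [h0, fourier_eval_zero, mul_one, fourier_ff hfti ha hβ m]

end Pool.Agent.Lib.MP_3ee548_nt.RS.H22
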